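import Pool.Agent.Helper23.EC.DGoalsM

set_option autoImplicit false

open MeasureTheory Filter Topology Set

namespace Pool.Agent.Helper88.EC.D_M3

open EC237

theorem summable_exp_abs (c : ℝ) (hc : 0 < c) :
    Summable (fun m : ℤ => Real.exp (-(c * |(m:ℝ)|))) := by
  have h1 : Summable (fun n : ℕ => Real.exp (-(c * (n:ℝ)))) := by
    have h2 := Real.summable_exp_neg_nat.mul_left (1:ℝ)
    have h3 : Summable (fun n : ℕ => (Real.exp (-c)) ^ n) :=
      summable_geometric_of_lt_one (Real.exp_pos _).le (by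
        rw [Real.exp_lt_one_iff]; linarith)
    refine h3.congr ?_
    intro n
    rw [← Real.exp_nat_mul]
    congr 1
    ring
  refine Summable.of_nat_of_neg ?_ ?_
  · refine h1.congr ?_
    intro n
    simp
  · refine h1.congr ?_
    intro n
    simp

theorem fS_zero (y : ℝ) (r1 r2 m1 m2 al1 al2 : ℤ) (i : ℕ)
    (h : (m1 - r1) % 3 ≠ 0 ∨ (m2 - r2) % 3 ≠ 0) : fS y r1 r2 m1 m2 al1 al2 i = 0 := by
  unfold fS
  have : ∀ q : ℤ × ℤ, ¬ (InCl r1 (q.1, m1) ∧ InCl r2 (q.2, m2)) := by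
    rintro q ⟨ha, hb⟩
    unfold InCl at ha hb
    simp only at ha hb
    rcases h with h | h <;> omega
  simp [this]

theorem thm (hN4 : EC237.N4) (hN7 : EC237.N7) (hM1 : EC237.M1) (hM2' : EC237.M2') : EC237.M3 := by
  intro y hy c1 c2 c3 c4 a1 a2 a3 a4 h1 h2 h3 h4 h12 hc
  obtain ⟨C, c, hC, hc0, hB⟩ := hN7 y hy
  have hone : ∀ m : ℤ × ℤ, (1:ℝ) ≤ (1 + |((m.1:ℝ) + m.2)|) ^ (1 / 2 : ℝ) := by
    intro m
    apply Real.one_le_rpow
    · have := abs_nonneg ((m.1:ℝ) + m.2)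
      linarith
    · norm_num
  constructor
  · have hF : Summable (fun m : ℤ × ℤ => ‖fS y c1 c2 m.1 m.2 a1 a2 0‖) := by
      refine Summable.of_nonneg_of_le (fun m => norm_nonneg _) ?_
        (hM1 y hy c1 c2 a1 a2 h1 h2 h12 0 (Or.inl rfl))
      intro m
      exact le_mul_of_one_le_right (norm_nonneg _) (hone m)
    have hH : Summable (fun m : ℤ => ‖hS y c3 m a3 2‖) := by
      refine Summable.of_nonneg_of_le (fun m => norm_nonneg _) ?_
        ((summable_exp_abs c hc0).mul_left C)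
      intro m
      exact (hB c3 m a3 h3).2.2.1
    have hP : Summable (fun p : (ℤ × ℤ) × ℤ => fS y c1 c2 p.1.1 p.1.2 a1 a2 0 * hS y c3 p.2 a3 2) := by
      refine Summable.of_norm ?_
      refine (hF.mul_of_nonneg hH (fun m => norm_nonneg _) (fun m => norm_nonneg _)).congr ?_
      intro p
      rw [norm_mul]
    have h5 := (Equiv.prodAssoc ℤ ℤ ℤ).symm.summable_iff.mpr hP
    exact h5
  · have hP : Summable (fun p : (ℤ × ℤ) × ℤ => fS y c1 c2 p.1.1 p.1.2 a1 a2 2 *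
        (hS y c3 p.2 a3 0 - hS y c4 (-(p.1.1 + p.1.2 + p.2)) a4 0)) := by
      refine Summable.of_norm ?_
      obtain ⟨D, hD, hM⟩ := hM2' y hy c3 c4 a3 a4 h3 h4
      have key : ∀ m : ℤ × ℤ, fS y c1 c2 m.1 m.2 a1 a2 2 ≠ 0 → (m.1 + m.2 + c3 + c4) % 3 = 0 := by
        intro m hm
        by_contra hcon
        apply hm
        apply fS_zero
        by_contra hcon2
        push Not at hcon2
        obtain ⟨h6, h7⟩ := hcon2
        omega
      have hterm : ∀ m : ℤ × ℤ, (fun m3 : ℤ => ‖fS y c1 c2 m.1 m.2 a1 a2 2 *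
          (hS y c3 m3 a3 0 - hS y c4 (-(m.1 + m.2 + m3)) a4 0)‖) =
          fun m3 : ℤ => ‖fS y c1 c2 m.1 m.2 a1 a2 2‖ *
          ‖hS y c3 m3 a3 0 - hS y c4 (-(m.1 + m.2) - m3) a4 0‖ := by
        intro m
        funext m3
        rw [norm_mul, show -(m.1 + m.2 + m3) = -(m.1 + m.2) - m3 by ring]
      rw [summable_prod_of_nonneg (fun p => norm_nonneg _)]
      constructor
      · intro m
        change Summable (fun m3 : ℤ => ‖fS y c1 c2 m.1 m.2 a1 a2 2 *
          (hS y c3 m3 a3 0 - hS y c4 (-(m.1 + m.2 + m3)) a4 0)‖)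
        rw [hterm m]
        by_cases h0 : fS y c1 c2 m.1 m.2 a1 a2 2 = 0
        · simp [h0, summable_zero]
        · exact (hM (m.1 + m.2) (key m h0)).1.mul_left _
      · refine Summable.of_nonneg_of_le (fun m => tsum_nonneg (fun m3 => norm_nonneg _)) ?_
          ((hM1 y hy c1 c2 a1 a2 h1 h2 h12 2 (Or.inr rfl)).mul_left D)
        intro m
        change ∑' m3 : ℤ, ‖fS y c1 c2 m.1 m.2 a1 a2 2 *
          (hS y c3 m3 a3 0 - hS y c4 (-(m.1 + m.2 + m3)) a4 0)‖ ≤ _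
        rw [hterm m]
        rw [tsum_mul_left]
        by_cases h0 : fS y c1 c2 m.1 m.2 a1 a2 2 = 0
        · simp [h0]
        · have h8 := (hM (m.1 + m.2) (key m h0)).2
          have h9 : (((m.1 + m.2 : ℤ) : ℝ)) = (m.1:ℝ) + m.2 := by push_cast; ring
          rw [h9] at h8
          calc ‖fS y c1 c2 m.1 m.2 a1 a2 2‖ * ∑' m3 : ℤ, ‖hS y c3 m3 a3 0 - hS y c4 (-(m.1 + m.2) - m3) a4 0‖
              ≤ ‖fS y c1 c2 m.1 m.2 a1 a2 2‖ * (D * (1 + |((m.1:ℝ) + m.2)|) ^ (1 / 2 : ℝ)) :=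
                mul_le_mul_of_nonneg_left h8 (norm_nonneg _)
            _ = D * (‖fS y c1 c2 m.1 m.2 a1 a2 2‖ * (1 + |((m.1:ℝ) + m.2)|) ^ (1 / 2 : ℝ)) := by ring
    have h5 := (Equiv.prodAssoc ℤ ℤ ℤ).symm.summable_iff.mpr hP
    refine h5.congr ?_
    intro m
    simp only [Function.comp, Equiv.prodAssoc_symm_apply, fL, hL]

end Pool.Agent.Helper88.EC.D_M3
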