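import Pool.Agent.Helper23.EC.DGoalsN
import Pool.Agent.Helper88.EC.D_M3

set_option autoImplicit false

open MeasureTheory Filter Topology Set

namespace Pool.Agent.Helper88.EC.D_N12

open EC237

/-- the summand of `D1` -/
noncomputable def dt (y : ℝ) (p : ℕ × ℕ) : ℝ := chi ((p.1:ℤ) + 1) * ((p.2:ℝ) + 1) ^ 2 * sgn2 p * QQ y p

theorem chi_abs (m : ℤ) : |chi m| ≤ 1 := by
  unfold chi
  split_ifs <;> simp

theorem sgn2_abs (p : ℕ × ℕ) : |sgn2 p| ≤ 1 := by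
  unfold sgn2
  rw [abs_pow]
  simp

theorem dt_summable (y : ℝ) (hy : 0 < y) : Summable (dt y) := by
  have hc : 0 < Real.pi * y := by positivity
  have h1 : Summable (fun n : ℕ => Real.exp (-(Real.pi * y) * (n:ℝ))) := by
    have := Real.summable_pow_mul_exp_neg_nat_mul 0 hc
    simpa using this
  have h2 : Summable (fun n : ℕ => ((n:ℝ) + 1) ^ 2 * Real.exp (-(Real.pi * y) * (n:ℝ))) := by
    have a0 := Real.summable_pow_mul_exp_neg_nat_mul 0 hc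
    have a1 := (Real.summable_pow_mul_exp_neg_nat_mul 1 hc).mul_left 2
    have a2 := Real.summable_pow_mul_exp_neg_nat_mul 2 hc
    refine ((a0.add a1).add a2).congr ?_
    intro n
    ring
  have h3 := h1.mul_of_nonneg h2 (fun n => (Real.exp_pos _).le) (fun n => by positivity)
  refine Summable.of_norm_bounded h3 ?_
  intro p
  rw [Real.norm_eq_abs]
  unfold dt
  rw [abs_mul, abs_mul, abs_mul]
  have e1 := chi_abs ((p.1:ℤ) + 1)
  have e2 := sgn2_abs p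
  have e3 : |((p.2:ℝ) + 1) ^ 2| = ((p.2:ℝ) + 1) ^ 2 := abs_of_nonneg (by positivity)
  have e4 : |QQ y p| = QQ y p := abs_of_nonneg (Real.exp_pos _).le
  have e5 : QQ y p ≤ Real.exp (-(Real.pi * y) * (p.1:ℝ)) * Real.exp (-(Real.pi * y) * (p.2:ℝ)) := by
    unfold QQ
    rw [← Real.exp_add]
    apply Real.exp_le_exp.mpr
    have : 0 ≤ (p.1:ℝ) * p.2 := by positivity
    nlinarith [mul_nonneg hc.le this]
  rw [e3, e4]
  calc |chi ((p.1:ℤ) + 1)| * ((p.2:ℝ) + 1) ^ 2 * |sgn2 p| * QQ y p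
      ≤ 1 * ((p.2:ℝ) + 1) ^ 2 * 1 * (Real.exp (-(Real.pi * y) * (p.1:ℝ)) * Real.exp (-(Real.pi * y) * (p.2:ℝ))) := by
        gcongr
        exact (Real.exp_pos _).le
    _ = _ := by ring

theorem epz_pow (M : ℕ) (v : ℕ) (m : ℤ) (hm : m = (M:ℤ) + 1 ∨ m = -((M:ℤ) + 1)) :
    epz 1 m ^ (v + 1) = sgn2 (M, v) := by
  unfold epz sgn2
  rcases Nat.even_or_odd M with h | h
  · obtain ⟨k, hk⟩ := h
    have : (m - 1) % 2 = 0 := by rcases hm with hm | hm <;> omega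
    rw [if_pos this]
    have h2 : Even ((v + 1) * M) := by
      rw [hk]
      exact ⟨(v+1)*k, by ring⟩
    simp only
    rw [h2.neg_one_pow, one_pow]
  · obtain ⟨k, hk⟩ := h
    have : ¬ (m - 1) % 2 = 0 := by rcases hm with hm | hm <;> omega
    rw [if_neg this]
    simp only
    rw [mul_comm (v+1) M, pow_mul]
    congr 1
    rw [Odd.neg_one_pow ⟨k, hk⟩]

theorem qz_eq (y : ℝ) (M : ℕ) (m : ℤ) (hm : m = (M:ℤ) + 1 ∨ m = -((M:ℤ) + 1)) :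
    qz y 1 m 2 = ∑' v : ℕ, ((v:ℝ) + 1) ^ 2 * sgn2 (M, v) * QQ y (M, v) := by
  unfold qz
  apply tsum_congr
  intro v
  rw [epz_pow M v m hm]
  have habs : |(m:ℝ)| = (M:ℝ) + 1 := by
    rcases hm with hm | hm
    · rw [hm]; push_cast; exact abs_of_nonneg (by positivity)
    · rw [hm]; push_cast
      rw [abs_neg]
      exact abs_of_nonneg (by positivity)
  rw [habs]
  unfold QQ
  simp only
  rw [show Real.pi * ((v:ℝ) + 1) * ((M:ℝ) + 1) * y = Real.pi * ((M:ℝ) + 1) * ((v:ℝ) + 1) * y by ring]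
  ring

theorem main (hN4 : EC237.N4) (hN6 : EC237.N6) (hN7 : EC237.N7) (y : ℝ) (hy : 0 < y) (M : ℕ) :
    xS y 1 ((M:ℤ) + 1) 1 1 + xS y 1 (-((M:ℤ) + 1)) 1 1 =
      ((y * Real.pi ^ 3 * ∑' v : ℕ, dt y (M, v) : ℝ) : ℂ) := by
  have hd : ∑' v : ℕ, dt y (M, v) =
      chi ((M:ℤ) + 1) * ∑' v : ℕ, ((v:ℝ) + 1) ^ 2 * sgn2 (M, v) * QQ y (M, v) := by
    rw [← tsum_mul_left]
    apply tsum_congr
    intro v
    unfold dt
    ring
  rw [hd]
  have h3 : ((M:ℤ) + 1) % 3 = 0 ∨ ((M:ℤ) + 1) % 3 = 1 ∨ ((M:ℤ) + 1) % 3 = 2 := by omega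
  rcases h3 with h3 | h3 | h3
  · have ha : (((M:ℤ) + 1) - 1) % 3 ≠ 0 := by omega
    have hb : (-((M:ℤ) + 1) - 1) % 3 ≠ 0 := by omega
    have h1 := ((hN4 y hy 1 ((M:ℤ) + 1) 1).2.2.2.2.2.2.2.2.2.2.2 ha 1).2.2
    have h2 := ((hN4 y hy 1 (-((M:ℤ) + 1)) 1).2.2.2.2.2.2.2.2.2.2.2 hb 1).2.2
    rw [h1, h2]
    have hchi : chi ((M:ℤ) + 1) = 0 := by
      unfold chi
      rw [if_neg (by omega), if_neg (by omega)]
    rw [hchi]
    simp
  · have ha : (((M:ℤ) + 1) - 1) % 3 = 0 := by omega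
    have hb : (-((M:ℤ) + 1) - 1) % 3 ≠ 0 := by omega
    have hne : ((M:ℤ) + 1) ≠ 0 := by omega
    have h1 := ((hN6 y hy 1 ((M:ℤ) + 1) 1 ha).1 hne).2.2.2.2
    have h2 := ((hN4 y hy 1 (-((M:ℤ) + 1)) 1).2.2.2.2.2.2.2.2.2.2.2 hb 1).2.2
    rw [h1, h2, add_zero]
    have hchi : chi ((M:ℤ) + 1) = 1 := by
      unfold chi
      rw [if_pos (by omega)]
    rw [hchi, qz_eq y M _ (Or.inl rfl), Int.sign_eq_one_of_pos (by omega)]
    congr 1
    push_cast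
    ring
  · have ha : (((M:ℤ) + 1) - 1) % 3 ≠ 0 := by omega
    have hb : (-((M:ℤ) + 1) - 1) % 3 = 0 := by omega
    have hne : -((M:ℤ) + 1) ≠ 0 := by omega
    have h1 := ((hN6 y hy 1 (-((M:ℤ) + 1)) 1 hb).1 hne).2.2.2.2
    have h2 := ((hN4 y hy 1 ((M:ℤ) + 1) 1).2.2.2.2.2.2.2.2.2.2.2 ha 1).2.2
    rw [h1, h2, zero_add]
    have hchi : chi ((M:ℤ) + 1) = -1 := by
      unfold chi
      rw [if_neg (by omega), if_pos (by omega)]
    rw [hchi, qz_eq y M _ (Or.inr rfl), Int.sign_eq_neg_one_of_neg (by omega)]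
    congr 1
    push_cast
    ring

theorem xsum (hN4 : EC237.N4) (hN7 : EC237.N7) (y : ℝ) (hy : 0 < y) (r al : ℤ) (hal : |al| ≤ 1) :
    Summable (fun m : ℤ => xS y r m al 1) := by
  obtain ⟨C, c, hC, hc0, hB⟩ := hN7 y hy
  refine Summable.of_norm_bounded ((D_M3.summable_exp_abs c hc0).mul_left C) ?_
  intro m
  exact (hB r m al hal).2.2.2.2.2

theorem sum1 (hN4 : EC237.N4) (hN6 : EC237.N6) (hN7 : EC237.N7) (y : ℝ) (hy : 0 < y) :
    ∑' m : ℤ, xS y 1 m 1 1 = ((y * D1 y : ℝ) : ℂ) := by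
  have hs := xsum hN4 hN7 y hy 1 1 (by norm_num)
  have h0 : xS y 1 0 1 1 = 0 :=
    ((hN4 y hy 1 0 1).2.2.2.2.2.2.2.2.2.2.2 (by decide) 1).2.2
  have hnat : Summable (fun n : ℕ => xS y 1 (n:ℤ) 1 1) :=
    hs.comp_injective (i := fun n : ℕ => (n:ℤ)) (fun a b h => by
      simp only at h
      exact_mod_cast h)
  have hneg : Summable (fun n : ℕ => xS y 1 (-(n:ℤ)) 1 1) :=
    hs.comp_injective (i := fun n : ℕ => -(n:ℤ)) (fun a b h => by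
      simp only [neg_inj] at h
      exact_mod_cast h)
  have h1 := HasSum.of_nat_of_neg (f := fun m : ℤ => xS y 1 m 1 1) hnat.hasSum hneg.hasSum
  have h2 : ∑' m : ℤ, xS y 1 m 1 1 = ∑' n : ℕ, (xS y 1 (n:ℤ) 1 1 + xS y 1 (-(n:ℤ)) 1 1) := by
    rw [h1.tsum_eq, h0, sub_zero, hnat.tsum_add hneg]
  have hadd : Summable (fun n : ℕ => xS y 1 (n:ℤ) 1 1 + xS y 1 (-(n:ℤ)) 1 1) := hnat.add hneg
  rw [h2, hadd.tsum_eq_zero_add]
  have h3 : xS y 1 ((0:ℕ):ℤ) 1 1 + xS y 1 (-((0:ℕ):ℤ)) 1 1 = 0 := by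
    simp [h0]
  rw [h3, zero_add]
  have h4 : ∀ M : ℕ, xS y 1 (((M + 1 : ℕ)):ℤ) 1 1 + xS y 1 (-((M + 1 : ℕ):ℤ)) 1 1 =
      ((y * Real.pi ^ 3 * ∑' v : ℕ, dt y (M, v) : ℝ) : ℂ) := by
    intro M
    have := main hN4 hN6 hN7 y hy M
    push_cast at this ⊢
    exact this
  rw [tsum_congr h4, ← Complex.ofReal_tsum, tsum_mul_left]
  have h5 : ∑' M : ℕ, ∑' v : ℕ, dt y (M, v) = ∑' p : ℕ × ℕ, dt y p :=
    ((dt_summable y hy).tsum_prod).symm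
  rw [h5]
  unfold D1 dt
  congr 1
  ring

theorem thm (hN4 : EC237.N4) (hN6 : EC237.N6) (hN7 : EC237.N7) : EC237.N12 := by
  intro y hy
  have hx1 := sum1 hN4 hN6 hN7 y hy
  refine ⟨fun r al hal => xsum hN4 hN7 y hy r al hal, hx1, ?_, ?_, ?_⟩
  · rw [← hx1]
    rw [← (Equiv.neg ℤ).tsum_eq (fun m : ℤ => xS y 1 m 1 1)]
    apply tsum_congr
    intro m
    have a1 := ((hN4 y hy (-1) m (-1)).2.1 1).2.2
    have a2 := ((hN4 y hy 1 (-m) (-1)).1 1).2.2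
    rw [show (-1 : ℤ) + 6 = 5 by norm_num] at a1
    rw [neg_neg, neg_neg] at a2
    rw [a1, a2]
    rfl
  · have a1 : ∀ m : ℤ, xS y 1 m (-1) 1 = -(xS y 1 m 1 1) := by
      intro m
      have := (hN4 y hy 1 m (-1)).2.2.2.2.2.2.1
      rw [this]
      push_cast
      ring
    rw [tsum_congr a1, tsum_neg, hx1]
  · intro al
    have a1 : ∀ m : ℤ, xS y 3 (-m) al 1 = -(xS y 3 m al 1) := by
      intro m
      have b1 := (hN4 y hy 3 m al).2.2.2.2.2.2.2.2.2.1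
      have b2 := ((hN4 y hy (-3) m al).2.1 1).2.2
      rw [show (-3 : ℤ) + 6 = 3 by norm_num] at b2
      rw [b1, ← b2]
    have a2 : ∑' m : ℤ, xS y 3 m al 1 = ∑' m : ℤ, xS y 3 (-m) al 1 :=
      ((Equiv.neg ℤ).tsum_eq (fun m : ℤ => xS y 3 m al 1)).symm
    rw [tsum_congr a1, tsum_neg] at a2
    have h2 : (2:ℂ) * ∑' m : ℤ, xS y 3 m al 1 = 0 := by linear_combination a2
    exact (mul_eq_zero.mp h2).resolve_left two_ne_zero

end Pool.Agent.Helper88.EC.D_N12
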