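import Pool.Agent.Helper23.EC.DGoalsN

set_option autoImplicit false

open MeasureTheory Filter Topology Set

namespace Pool.Agent.Helper88.EC.D_N11

open EC237

theorem As_zero (w : ℂ) (al : ℤ) : As w ((0 : ℤ × ℤ), al) = 0 := by
  unfold As KA gser
  ext p
  simp

theorem Bs_zero (w : ℂ) (al : ℤ) : Bs w ((0 : ℤ × ℤ), al) = 0 := by
  unfold Bs KB gser
  ext p
  simp

theorem Pp_zero_left (w : ℂ) (al : ℤ) (v : SV) : Pp w ((0 : ℤ × ℤ), al) v = 0 := by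
  unfold Pp XX
  rw [As_zero, Bs_zero]
  simp

theorem Pp_zero_right (w : ℂ) (al : ℤ) (v : SV) : Pp w v ((0 : ℤ × ℤ), al) = 0 := by
  unfold Pp XX
  rw [As_zero, Bs_zero]
  simp

theorem rk_nonneg (k : ℤ × ℤ) : 0 ≤ rk k := Real.sqrt_nonneg _

theorem pw_nonneg (k : ℤ × ℤ) : 0 ≤ pw k := Real.rpow_nonneg (rk_nonneg k) _

/-- the equivalence ((m1,m2),(n1,n2)) -> ((n1,m1),(n2,m2)) -/
def eqv : (ℤ × ℤ) × (ℤ × ℤ) ≃ (ℤ × ℤ) × (ℤ × ℤ) where
  toFun q := ((q.2.1, q.1.1), (q.2.2, q.1.2))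
  invFun p := ((p.1.2, p.2.2), (p.1.1, p.2.1))
  left_inv q := rfl
  right_inv p := rfl

theorem thm (hB1 : EC237.B1) (hB4 : EC237.B4) (hB5 : EC237.B5) (hN2 : EC237.N2) : EC237.N11 := by
  intro y hy r1 r2 al1 al2 h1 h2
  have hs : Summable (fun p : (ℤ × ℤ) × (ℤ × ℤ) => if InCl r1 p.1 ∧ InCl r2 p.2 then
    PowerSeries.coeff 1 (Pp (y:ℂ) (p.1, al1) (p.2, al2)) else 0) := by
    obtain ⟨C, hC, hB⟩ := hB5 y hy
    have hw : (y : ℂ) ∈ Bd y := by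
      unfold Bd
      exact Metric.mem_ball_self (by positivity)
    refine Summable.of_norm_bounded (hB4.2.2.2.mul_left C) ?_
    intro p
    have hnn : 0 ≤ C * (pw p.1 * pw p.2 + pw p.1 * pw (p.1 + p.2) + pw p.2 * pw (p.1 + p.2)) := by
      have a1 := pw_nonneg p.1
      have a2 := pw_nonneg p.2
      have a3 := pw_nonneg (p.1 + p.2)
      positivity
    split_ifs with hc
    · by_cases hp1 : p.1 = 0
      · rw [hp1] at hnn ⊢
        rw [Pp_zero_left]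
        simpa using hnn
      · by_cases hp2 : p.2 = 0
        · rw [hp2] at hnn ⊢
          rw [Pp_zero_right]
          simpa using hnn
        · exact hB (y:ℂ) hw (p.1, al1) (p.2, al2) h1 h2 hp1 hp2
    · simpa using hnn
  refine ⟨hs, ?_⟩
  have h3 := (eqv.hasSum_iff.mpr hs.hasSum)
  have h4 : ∀ m : ℤ × ℤ, HasSum (fun q : ℤ × ℤ => ((fun p : (ℤ × ℤ) × (ℤ × ℤ) =>
      if InCl r1 p.1 ∧ InCl r2 p.2 then
      PowerSeries.coeff 1 (Pp (y:ℂ) (p.1, al1) (p.2, al2)) else 0) ∘ eqv) (m, q))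
      (pS y r1 r2 m.1 m.2 al1 al2 1) := by
    intro m
    exact (hN2 y hy r1 r2 m.1 m.2 al1 al2 1).hasSum
  exact h3.prod_fiberwise h4

end Pool.Agent.Helper88.EC.D_N11
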